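import Pool.Agent.U481.HW.Stm

set_option autoImplicit false

/-!
Project HW, package ONE: from doubling and positivity to the estimate of the weight on an interval
against the smaller of the two masses of the dual weight.
-/

open MeasureTheory Filter Topology Set
open scoped ENNReal NNReal

namespace Pool.Agent.U346.HW

open Pool.Dav Pool.Agent.U481.HW

/-- If `f` vanishes near `x`, the Hilbert transform at `x` is the plain integral. -/
theorem hilbert_far (f : ℝ → ℂ) (x δ : ℝ) (hδ : 0 < δ) (h0 : ∀ y, |x - y| < δ → f y = 0) :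
    hilbert f x = (1 / (Real.pi : ℂ)) * ∫ y, f y / ((x : ℂ) - (y : ℂ)) := by
  have hH : HasHilbert f x ((1 / (Real.pi : ℂ)) * ∫ y, f y / ((x : ℂ) - (y : ℂ))) := by
    have hev : ∀ᶠ ε in 𝓝[>] (0 : ℝ), truncH f ε x
        = (1 / (Real.pi : ℂ)) * ∫ y, f y / ((x : ℂ) - (y : ℂ)) := by
      have : ∀ᶠ ε in 𝓝[>] (0 : ℝ), ε < δ := by
        have := (eventually_lt_nhds hδ)
        exact this.filter_mono nhdsWithin_le_nhds
      filter_upwards [this] with ε hε
      unfold truncH
      congr 1
      apply setIntegral_eq_integral_of_forall_compl_eq_zero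
      intro y hy
      have : |x - y| ≤ ε := by
        simpa using hy
      rw [h0 y (lt_of_le_of_lt this hε), zero_div]
    exact (tendsto_congr' hev).2 tendsto_const_nhds
  unfold hilbert
  have hex : ∃ v, HasHilbert f x v := ⟨_, hH⟩
  rw [dif_pos hex]
  exact tendsto_nhds_unique hex.choose_spec hH

/-- The test function estimate. -/
theorem test (p : ℝ) (hp : 1 < p) (U : ℝ → ℝ≥0) (hU : IsWeight U) (hpos : ∀ᵐ x, U x ≠ 0)
    (C : ℝ≥0∞) (hC : ∀ f : ℝ → ℂ, Integrable f → ∫ x, f x = 0 →
    (∫⁻ x, ‖hilbert f x‖ₑ ^ p * (U x : ℝ≥0∞)) ≤ C * ∫⁻ x, ‖f x‖ₑ ^ p * (U x : ℝ≥0∞))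
    (a h : ℝ) (hh : 0 < h) (E F : Set ℝ) (hE : MeasurableSet E) (hF : MeasurableSet F)
    (hEI : E ⊆ Ioo a (a + h)) (hFf : F ⊆ {y : ℝ | 8 * h < |y - a|})
    (hEt : ∫⁻ x in E, sg p U x ≠ ⊤) (hFt : ∫⁻ x in F, sg p U x ≠ ⊤)
    (hE0 : ∫⁻ x in E, sg p U x ≠ 0) (hF0 : ∫⁻ x in F, sg p U x ≠ 0) :
    (ENNReal.ofReal (1 / (3 * Real.pi * h))) ^ p *
      (∫⁻ x in Ioo (a + h) (a + 2 * h), (U x : ℝ≥0∞))
      ≤ C * ((∫⁻ x in E, sg p U x) ^ (1 - p) + (∫⁻ x in F, sg p U x) ^ (1 - p)) := by
  have hsm : Measurable (sg p U) := by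
    unfold sg
    exact (measurable_coe_nnreal_ennreal.comp hU.meas).pow_const _
  have hst : ∀ᵐ x, sg p U x ≠ ⊤ := by
    filter_upwards [hpos] with x hx
    unfold sg
    intro hcon
    rw [ENNReal.rpow_eq_top_iff] at hcon
    rcases hcon with hcon | hcon
    · exact hx (by simpa using hcon.1)
    · exact ENNReal.coe_ne_top hcon.1
  set sE : ℝ≥0∞ := ∫⁻ x in E, sg p U x with hsE
  set sF : ℝ≥0∞ := ∫⁻ x in F, sg p U x with hsF
  set φ : ℝ → ℝ := fun y => (sg p U y).toReal with hφ
  have hφm : Measurable φ := hsm.ennreal_toReal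
  have hφ0 : ∀ y, 0 ≤ φ y := fun y => ENNReal.toReal_nonneg
  have hEpos : 0 < sE.toReal := ENNReal.toReal_pos hE0 hEt
  have hFpos : 0 < sF.toReal := ENNReal.toReal_pos hF0 hFt
  have hiE : IntegrableOn φ E := integrable_toReal_of_lintegral_ne_top hsm.aemeasurable hEt
  have hiF : IntegrableOn φ F := integrable_toReal_of_lintegral_ne_top hsm.aemeasurable hFt
  have hIE : ∫ y in E, φ y = sE.toReal := by
    rw [hφ, integral_toReal hsm.aemeasurable]
    exact ae_restrict_of_ae (hst.mono fun x hx => lt_top_iff_ne_top.2 hx)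
  have hIF : ∫ y in F, φ y = sF.toReal := by
    rw [hφ, integral_toReal hsm.aemeasurable]
    exact ae_restrict_of_ae (hst.mono fun x hx => lt_top_iff_ne_top.2 hx)
  -- the two pieces
  set u : ℝ → ℝ := fun y => E.indicator (fun y => φ y / sE.toReal) y with hu
  set v : ℝ → ℝ := fun y => F.indicator (fun y => φ y / sF.toReal) y with hv
  have hui : Integrable u := (integrable_indicator_iff hE).2 (hiE.div_const _)
  have hvi : Integrable v := (integrable_indicator_iff hF).2 (hiF.div_const _)
  have hu1 : ∫ y, u y = 1 := by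
    rw [hu, integral_indicator hE, integral_div, hIE, div_self hEpos.ne']
  have hv1 : ∫ y, v y = 1 := by
    rw [hv, integral_indicator hF, integral_div, hIF, div_self hFpos.ne']
  have hu0 : ∀ y, 0 ≤ u y := fun y => indicator_nonneg (fun y _ => div_nonneg (hφ0 y) hEpos.le) y
  have hv0 : ∀ y, 0 ≤ v y := fun y => indicator_nonneg (fun y _ => div_nonneg (hφ0 y) hFpos.le) y
  have hdisj : Disjoint E F := by
    rw [Set.disjoint_left]
    intro y hy1 hy2
    have h1 := hEI hy1
    have h2 := hFf hy2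
    simp only [mem_Ioo, mem_ofPred_eq] at h1 h2
    rw [abs_of_pos (by linarith)] at h2
    linarith
  set f : ℝ → ℂ := fun y => ((u y - v y : ℝ) : ℂ) with hf
  have hfi : Integrable f := (hui.sub hvi).ofReal
  have hf0 : ∫ y, f y = 0 := by
    have : ∫ y, f y = ((∫ y, (u y - v y) : ℝ) : ℂ) := integral_ofReal
    rw [this, integral_sub hui hvi, hu1, hv1]
    simp
  have hmain := hC f hfi hf0
  -- lower bound
  have hlow : ∀ x ∈ Ioo (a + h) (a + 2 * h), ENNReal.ofReal (1 / (3 * Real.pi * h))
      ≤ ‖hilbert f x‖ₑ := by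
    intro x hx
    have hx1 := hx.1
    have hx2 := hx.2
    have hδ : 0 < min (x - (a + h)) h := lt_min (by linarith) hh
    have hvan : ∀ y, |x - y| < min (x - (a + h)) h → f y = 0 := by
      intro y hy
      have hy' := lt_min_iff.1 hy
      have h1 : y ∉ E := by
        intro hyE
        have := (hEI hyE).2
        have h2 := hy'.1
        have h3 := le_abs_self (x - y)
        linarith
      have h2 : y ∉ F := by
        intro hyF
        have h3 := hFf hyF
        simp only [mem_ofPred_eq] at h3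
        have h4 : |y - a| ≤ |x - y| + |x - a| := by
          have : y - a = -(x - y) + (x - a) := by ring
          rw [this]
          refine (abs_add_le _ _).trans ?_
          rw [abs_neg]
        have h5 : |x - a| < 2 * h := by
          rw [abs_of_pos (by linarith)]
          linarith
        have := hy'.2
        linarith
      simp [hf, hu, hv, h1, h2]
    rw [hilbert_far f x _ hδ hvan]
    have hreal : ∫ y, f y / ((x : ℂ) - (y : ℂ)) = ((∫ y, (u y - v y) / (x - y) : ℝ) : ℂ) := by
      rw [show ((∫ y, (u y - v y) / (x - y) : ℝ) : ℂ)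
        = ∫ y, (((u y - v y) / (x - y) : ℝ) : ℂ) from integral_ofReal.symm]
      apply integral_congr_ae
      refine Eventually.of_forall fun y => ?_
      simp [hf]
    have hint : Integrable (fun y => (u y - v y) / (x - y)) := by
      have hb : Integrable (fun y => (min (x - (a + h)) h)⁻¹ * (u y + v y)) :=
        (hui.add hvi).const_mul _
      refine hb.mono' ?_ ?_
      · exact ((hui.sub hvi).aestronglyMeasurable).aemeasurable.div
          (measurable_const.sub measurable_id).aemeasurable |>.aestronglyMeasurable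
      · refine Eventually.of_forall fun y => ?_
        rw [Real.norm_eq_abs, abs_div]
        by_cases hy : |x - y| < min (x - (a + h)) h
        · have := hvan y hy
          have h0 : u y - v y = 0 := Complex.ofReal_eq_zero.1 this
          rw [h0]
          simp only [abs_zero, zero_div]
          exact mul_nonneg (inv_nonneg.2 hδ.le) (add_nonneg (hu0 y) (hv0 y))
        · push Not at hy
          have h1 : |u y - v y| ≤ u y + v y := by
            rw [abs_le]
            constructor <;> linarith [hu0 y, hv0 y]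
          rw [div_eq_inv_mul]
          apply mul_le_mul _ h1 (abs_nonneg _) (inv_nonneg.2 hδ.le)
          exact inv_anti₀ hδ hy
    have hge : 1 / (3 * h) ≤ ∫ y, (u y - v y) / (x - y) := by
      have e1 : 1 / (3 * h) = ∫ y, (u y * (1 / (2 * h)) - v y * (1 / (6 * h))) := by
        rw [integral_sub (hui.mul_const _) (hvi.mul_const _), integral_mul_const,
          integral_mul_const, hu1, hv1]
        field_simp
        norm_num
      rw [e1]
      apply integral_mono ((hui.mul_const _).sub (hvi.mul_const _)) hint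
      intro y
      show u y * (1 / (2 * h)) - v y * (1 / (6 * h)) ≤ (u y - v y) / (x - y)
      rw [sub_div]
      have hA : u y * (1 / (2 * h)) ≤ u y / (x - y) := by
        by_cases hyE : y ∈ E
        · have h1 := hEI hyE
          rw [div_eq_mul_one_div (u y) (x - y)]
          apply mul_le_mul_of_nonneg_left _ (hu0 y)
          apply one_div_le_one_div_of_le
          · linarith [h1.2]
          · linarith [h1.1]
        · simp [hu, hyE]
      have hB : v y / (x - y) ≤ v y * (1 / (6 * h)) := by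
        by_cases hyF : y ∈ F
        · have h1 := hFf hyF
          simp only [mem_ofPred_eq] at h1
          rw [div_eq_mul_one_div (v y) (x - y)]
          apply mul_le_mul_of_nonneg_left _ (hv0 y)
          rcases lt_or_ge 0 (x - y) with hs | hs
          · apply one_div_le_one_div_of_le (by linarith)
            by_contra hcon
            push Not at hcon
            have : |y - a| < 8 * h := by
              rw [abs_lt]
              constructor <;> linarith
            linarith
          · have h2 : 1 / (x - y) ≤ 0 := one_div_nonpos.2 hs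
            have h3 : 0 ≤ 1 / (6 * h) := by positivity
            linarith
        · simp [hv, hyF]
      linarith
    rw [hreal]
    rw [← ofReal_norm]
    apply ENNReal.ofReal_le_ofReal
    rw [norm_mul, norm_div, norm_one, Complex.norm_real, Complex.norm_real]
    rw [Real.norm_of_nonneg Real.pi_pos.le, Real.norm_eq_abs]
    have h1 : 1 / (3 * Real.pi * h) = 1 / Real.pi * (1 / (3 * h)) := by
      field_simp
    rw [h1]
    apply mul_le_mul_of_nonneg_left _ (by positivity)
    exact hge.trans (le_abs_self _)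
  have hL : (ENNReal.ofReal (1 / (3 * Real.pi * h))) ^ p *
      (∫⁻ x in Ioo (a + h) (a + 2 * h), (U x : ℝ≥0∞))
      ≤ ∫⁻ x, ‖hilbert f x‖ₑ ^ p * (U x : ℝ≥0∞) := by
    have hUm : Measurable (fun x => (U x : ℝ≥0∞)) := measurable_coe_nnreal_ennreal.comp hU.meas
    rw [← lintegral_const_mul _ hUm]
    refine le_trans ?_ (setLIntegral_le_lintegral (Ioo (a + h) (a + 2 * h)) _)
    apply setLIntegral_mono' measurableSet_Ioo
    intro x hx
    exact mul_le_mul_left (ENNReal.rpow_le_rpow (hlow x hx) (by linarith)) _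
  -- upper bound
  have hkey : ∀ x, U x ≠ 0 → sg p U x ≠ ⊤ → ∀ c : ℝ≥0∞, c ≠ 0 → c ≠ ⊤ →
      (ENNReal.ofReal ((sg p U x).toReal / c.toReal)) ^ p * (U x : ℝ≥0∞)
        = c ^ (-p) * sg p U x := by
    intro x hx hxt c hc0 hct
    have hcp : 0 < c.toReal := ENNReal.toReal_pos hc0 hct
    rw [ENNReal.ofReal_div_of_pos hcp, ENNReal.ofReal_toReal hxt, ENNReal.ofReal_toReal hct,
      ENNReal.div_rpow_of_nonneg _ _ (by linarith), ENNReal.div_eq_inv_mul, ← ENNReal.rpow_neg,
      mul_assoc]
    congr 1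
    unfold sg
    have hU0 : (U x : ℝ≥0∞) ≠ 0 := by simpa using hx
    have hUt : (U x : ℝ≥0∞) ≠ ⊤ := ENNReal.coe_ne_top
    rw [← ENNReal.rpow_mul]
    nth_rewrite 2 [← ENNReal.rpow_one (U x : ℝ≥0∞)]
    rw [← ENNReal.rpow_add _ _ hU0 hUt]
    congr 1
    have : p - 1 ≠ 0 := by linarith
    field_simp
    ring
  have hR : ∫⁻ x, ‖f x‖ₑ ^ p * (U x : ℝ≥0∞) ≤ sE ^ (1 - p) + sF ^ (1 - p) := by
    have hle : ∀ᵐ x, ‖f x‖ₑ ^ p * (U x : ℝ≥0∞)
        ≤ E.indicator (fun x => sE ^ (-p) * sg p U x) x
          + F.indicator (fun x => sF ^ (-p) * sg p U x) x := by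
      filter_upwards [hpos, hst] with x hx hxt
      by_cases hxE : x ∈ E
      · have hxF : x ∉ F := Set.disjoint_left.1 hdisj hxE
        have h1 : ‖f x‖ₑ = ENNReal.ofReal ((sg p U x).toReal / sE.toReal) := by
          rw [← ofReal_norm]
          congr 1
          have : f x = ((φ x / sE.toReal : ℝ) : ℂ) := by
            simp [hf, hu, hv, hxE, hxF]
          rw [this, Complex.norm_real, Real.norm_of_nonneg (div_nonneg (hφ0 x) hEpos.le)]
        rw [h1, hkey x hx hxt sE hE0 hEt]
        simp [hxE, hxF]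
      · by_cases hxF : x ∈ F
        · have h1 : ‖f x‖ₑ = ENNReal.ofReal ((sg p U x).toReal / sF.toReal) := by
            rw [← ofReal_norm]
            congr 1
            have : f x = ((-(φ x / sF.toReal) : ℝ) : ℂ) := by
              simp [hf, hu, hv, hxE, hxF]
            rw [this, Complex.norm_real, norm_neg,
              Real.norm_of_nonneg (div_nonneg (hφ0 x) hFpos.le)]
          rw [h1, hkey x hx hxt sF hF0 hFt]
          simp [hxE, hxF]
        · have : f x = 0 := by simp [hf, hu, hv, hxE, hxF]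
          rw [this]
          simp only [enorm_zero]
          rw [ENNReal.zero_rpow_of_pos (by linarith), zero_mul]
          exact zero_le
    refine (lintegral_mono_ae hle).trans ?_
    rw [lintegral_add_left ((hsm.const_mul _).indicator hE), lintegral_indicator hE,
      lintegral_indicator hF, lintegral_const_mul _ hsm, lintegral_const_mul _ hsm, ← hsE, ← hsF]
    apply le_of_eq
    congr 1
    · nth_rewrite 2 [← ENNReal.rpow_one sE]
      rw [← ENNReal.rpow_add _ _ hE0 hEt]
      congr 1; ring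
    · nth_rewrite 2 [← ENNReal.rpow_one sF]
      rw [← ENNReal.rpow_add _ _ hF0 hFt]
      congr 1; ring
  exact hL.trans (hmain.trans (mul_le_mul_right hR _))

theorem two_min (p : ℝ) (hp : 1 < p) (x y : ℝ≥0∞) (hx0 : x ≠ 0) (hy0 : y ≠ 0) (hx : x ≠ ⊤)
    (hy : y ≠ ⊤) : (x ^ (1 - p) + y ^ (1 - p)) * (min x y) ^ (p - 1) ≤ 2 := by
  have key : ∀ z : ℝ≥0∞, min x y ≤ z → z ≠ 0 → z ≠ ⊤ →
      z ^ (1 - p) * (min x y) ^ (p - 1) ≤ 1 := by
    intro z hz hz0 hzt
    have h1 : (min x y) ^ (p - 1) ≤ z ^ (p - 1) := ENNReal.rpow_le_rpow hz (by linarith)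
    calc z ^ (1 - p) * (min x y) ^ (p - 1) ≤ z ^ (1 - p) * z ^ (p - 1) := mul_le_mul_right h1 _
      _ = 1 := by
          rw [← ENNReal.rpow_add _ _ hz0 hzt]
          simp
  rw [add_mul]
  calc _ ≤ (1 : ℝ≥0∞) + 1 := add_le_add (key x (min_le_left _ _) hx0 hx)
        (key y (min_le_right _ _) hy0 hy)
    _ = 2 := by norm_num

theorem main : S_dbl → S_pos → S_one := by
  intro hdbl hpos p hp U hU hadm
  obtain ⟨D, hD, hdb⟩ := hdbl p hp U hU hadm
  have hps := hpos p hp U hU hadm
  obtain ⟨C, hCt, hC⟩ := hadm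
  have hsm : Measurable (sg p U) := by
    unfold sg
    exact (measurable_coe_nnreal_ennreal.comp hU.meas).pow_const _
  have hst : ∀ᵐ x, sg p U x ≠ ⊤ := by
    filter_upwards [hps] with x hx
    unfold sg
    intro hcon
    rw [ENNReal.rpow_eq_top_iff] at hcon
    rcases hcon with hcon | hcon
    · exact hx (by simpa using hcon.1)
    · exact ENNReal.coe_ne_top hcon.1
  have hp0 : 0 ≤ p := by linarith
  refine ⟨D * (ENNReal.ofReal (3 * Real.pi) ^ p * (C * 2)), ?_, ?_⟩
  · exact ENNReal.mul_lt_top hD (ENNReal.mul_lt_top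
      (ENNReal.rpow_lt_top_of_nonneg hp0 ENNReal.ofReal_ne_top)
      (ENNReal.mul_lt_top hCt (by norm_num)))
  intro a h hh
  set UI : ℝ≥0∞ := ∫⁻ x in Ioo (a + h) (a + 2 * h), (U x : ℝ≥0∞) with hUI
  have hUIt : UI ≠ ⊤ := (hU.fin _ _).ne
  -- the exhausting sets
  set L : ℕ → Set ℝ := fun n => {x | sg p U x ≤ (n : ℝ≥0∞)} with hL
  have hLm : ∀ n, MeasurableSet (L n) := fun n => measurableSet_le hsm measurable_const
  set E : ℕ → Set ℝ := fun n => Ioo a (a + h) ∩ L n with hE
  set F : ℕ → Set ℝ := fun n => {y : ℝ | 8 * h < |y - a|} ∩ (L n ∩ Icc (-(n : ℝ)) n) with hF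
  have hfarm : MeasurableSet {y : ℝ | 8 * h < |y - a|} :=
    measurableSet_lt measurable_const (measurable_id.sub_const a).norm
  have hEm : ∀ n, MeasurableSet (E n) := fun n => measurableSet_Ioo.inter (hLm n)
  have hFm : ∀ n, MeasurableSet (F n) := fun n => hfarm.inter ((hLm n).inter measurableSet_Icc)
  have hLmono : Monotone L := by
    intro m n hmn x hx
    exact le_trans (show sg p U x ≤ (m : ℝ≥0∞) from hx) (by exact_mod_cast hmn)
  have hEmono : Monotone E := fun m n hmn => inter_subset_inter_right _ (hLmono hmn)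
  have hFmono : Monotone F := by
    intro m n hmn
    apply inter_subset_inter_right
    apply inter_subset_inter (hLmono hmn)
    have : (m : ℝ) ≤ n := by exact_mod_cast hmn
    exact Icc_subset_Icc (by linarith) this
  have hfinE : ∀ n, ∫⁻ x in E n, sg p U x ≠ ⊤ := by
    intro n
    have h1 : ∫⁻ x in E n, sg p U x ≤ (n : ℝ≥0∞) * volume (Ioo a (a + h)) := by
      calc ∫⁻ x in E n, sg p U x ≤ ∫⁻ x in E n, (n : ℝ≥0∞) :=
            setLIntegral_mono' (hEm n) (fun x hx => hx.2)
        _ = (n : ℝ≥0∞) * volume (E n) := by rw [setLIntegral_const]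
        _ ≤ _ := mul_le_mul_right (measure_mono inter_subset_left) _
    refine (lt_of_le_of_lt h1 ?_).ne
    apply ENNReal.mul_lt_top (by simp)
    rw [Real.volume_Ioo]; exact ENNReal.ofReal_lt_top
  have hfinF : ∀ n, ∫⁻ x in F n, sg p U x ≠ ⊤ := by
    intro n
    have h1 : ∫⁻ x in F n, sg p U x ≤ (n : ℝ≥0∞) * volume (Icc (-(n : ℝ)) n) := by
      calc ∫⁻ x in F n, sg p U x ≤ ∫⁻ x in F n, (n : ℝ≥0∞) :=
            setLIntegral_mono' (hFm n) (fun x hx => hx.2.1)
        _ = (n : ℝ≥0∞) * volume (F n) := by rw [setLIntegral_const]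
        _ ≤ _ := mul_le_mul_right (measure_mono (inter_subset_right.trans inter_subset_right)) _
    refine (lt_of_le_of_lt h1 ?_).ne
    apply ENNReal.mul_lt_top (by simp)
    rw [Real.volume_Icc]; exact ENNReal.ofReal_lt_top
  have hstep : ∀ n, (ENNReal.ofReal (1 / (3 * Real.pi * h))) ^ p * UI *
      (min (∫⁻ x in E n, sg p U x) (∫⁻ x in F n, sg p U x)) ^ (p - 1) ≤ C * 2 := by
    intro n
    by_cases h1 : ∫⁻ x in E n, sg p U x = 0
    · rw [h1]
      simp only [zero_le, inf_of_le_left]
      rw [ENNReal.zero_rpow_of_pos (by linarith), mul_zero]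
      exact zero_le
    by_cases h2 : ∫⁻ x in F n, sg p U x = 0
    · rw [h2]
      simp only [zero_le, inf_of_le_right]
      rw [ENNReal.zero_rpow_of_pos (by linarith), mul_zero]
      exact zero_le
    have h3 := test p hp U hU hps C hC a h hh (E n) (F n) (hEm n) (hFm n) inter_subset_left
      inter_subset_left (hfinE n) (hfinF n) h1 h2
    calc _ ≤ C * ((∫⁻ x in E n, sg p U x) ^ (1 - p) + (∫⁻ x in F n, sg p U x) ^ (1 - p)) *
          (min (∫⁻ x in E n, sg p U x) (∫⁻ x in F n, sg p U x)) ^ (p - 1) := mul_le_mul_left h3 _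
      _ ≤ C * 2 := by
          rw [mul_assoc]
          exact mul_le_mul_right (two_min p hp _ _ h1 h2 (hfinE n) (hfinF n)) _
  -- limits
  have hlimE : Tendsto (fun n => ∫⁻ x in E n, sg p U x) atTop
      (𝓝 (∫⁻ x in Ioo a (a + h), sg p U x)) := by
    have h1 : Tendsto (fun n => (volume.withDensity (sg p U)) (E n)) atTop
        (𝓝 ((volume.withDensity (sg p U)) (⋃ n, E n))) := tendsto_measure_iUnion_atTop hEmono
    simp_rw [withDensity_apply _ (hEm _)] at h1
    rw [withDensity_apply _ (MeasurableSet.iUnion hEm)] at h1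
    have h2 : ∫⁻ x in ⋃ n, E n, sg p U x = ∫⁻ x in Ioo a (a + h), sg p U x := by
      apply setLIntegral_congr
      filter_upwards [hst] with x hx
      apply propext
      constructor
      · intro hx1
        obtain ⟨n, hn⟩ := mem_iUnion.1 hx1
        exact hn.1
      · intro hx1
        obtain ⟨n, hn⟩ := ENNReal.exists_nat_gt hx
        exact mem_iUnion.2 ⟨n, hx1, hn.le⟩
    rwa [h2] at h1
  have hlimF : Tendsto (fun n => ∫⁻ x in F n, sg p U x) atTop
      (𝓝 (∫⁻ x in {y : ℝ | 8 * h < |y - a|}, sg p U x)) := by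
    have h1 : Tendsto (fun n => (volume.withDensity (sg p U)) (F n)) atTop
        (𝓝 ((volume.withDensity (sg p U)) (⋃ n, F n))) := tendsto_measure_iUnion_atTop hFmono
    simp_rw [withDensity_apply _ (hFm _)] at h1
    rw [withDensity_apply _ (MeasurableSet.iUnion hFm)] at h1
    have h2 : ∫⁻ x in ⋃ n, F n, sg p U x = ∫⁻ x in {y : ℝ | 8 * h < |y - a|}, sg p U x := by
      apply setLIntegral_congr
      filter_upwards [hst] with x hx
      apply propext
      constructor
      · intro hx1
        obtain ⟨n, hn⟩ := mem_iUnion.1 hx1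
        exact hn.1
      · intro hx1
        obtain ⟨n, hn⟩ := ENNReal.exists_nat_gt hx
        obtain ⟨m, hm⟩ := exists_nat_ge |x|
        refine mem_iUnion.2 ⟨max n m, hx1, ?_, ?_⟩
        · exact hLmono (le_max_left n m) hn.le
        · have h3 : |x| ≤ ((max n m : ℕ) : ℝ) := hm.trans (by exact_mod_cast le_max_right n m)
          exact abs_le.1 h3
    rwa [h2] at h1
  have hlim := (ENNReal.continuous_rpow_const (y := p - 1)).continuousAt.tendsto.comp
    (hlimE.min hlimF)
  set M : ℝ≥0∞ := min (∫⁻ x in Ioo a (a + h), sg p U x)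
    (∫⁻ x in {y : ℝ | 8 * h < |y - a|}, sg p U x) with hM
  have hcst : (ENNReal.ofReal (1 / (3 * Real.pi * h))) ^ p * UI ≠ ⊤ :=
    ENNReal.mul_ne_top (ENNReal.rpow_ne_top_of_nonneg hp0 ENNReal.ofReal_ne_top) hUIt
  have hfin : (ENNReal.ofReal (1 / (3 * Real.pi * h))) ^ p * UI * M ^ (p - 1) ≤ C * 2 := by
    refine le_of_tendsto (ENNReal.Tendsto.const_mul hlim (Or.inr hcst)) ?_
    exact Eventually.of_forall hstep
  have hprod : ENNReal.ofReal (3 * Real.pi) ^ p * ENNReal.ofReal h ^ p
      * (ENNReal.ofReal (1 / (3 * Real.pi * h))) ^ p = 1 := by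
    rw [← ENNReal.mul_rpow_of_nonneg _ _ hp0, ← ENNReal.mul_rpow_of_nonneg _ _ hp0,
      ← ENNReal.ofReal_mul (by positivity), ← ENNReal.ofReal_mul (by positivity)]
    have : 3 * Real.pi * h * (1 / (3 * Real.pi * h)) = 1 := by
      field_simp
    rw [this]
    simp
  calc (∫⁻ x in Ioo a (a + h), (U x : ℝ≥0∞)) * M ^ (p - 1)
      ≤ (D * UI) * M ^ (p - 1) := mul_le_mul_left (hdb a h hh).1 _
    _ = (ENNReal.ofReal (3 * Real.pi) ^ p * ENNReal.ofReal h ^ p
      * (ENNReal.ofReal (1 / (3 * Real.pi * h))) ^ p) * ((D * UI) * M ^ (p - 1)) := by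
        rw [hprod, one_mul]
    _ = D * (ENNReal.ofReal (3 * Real.pi) ^ p * ((ENNReal.ofReal (1 / (3 * Real.pi * h))) ^ p
        * UI * M ^ (p - 1))) * ENNReal.ofReal h ^ p := by ring
    _ ≤ D * (ENNReal.ofReal (3 * Real.pi) ^ p * (C * 2)) * ENNReal.ofReal h ^ p := by
        gcongr

end Pool.Agent.U346.HW
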